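import Pool.Agent.BSE.Stmts2
import Pool.Agent.Helper90_BSE.UNI

/-!
# EXI: existence of the Bose representations
-/

set_option autoImplicit false

open MeasureTheory Matrix Finset
open scoped ComplexConjugate

namespace Pool.Agent.BSE.H6

open Pool.Agent.BSE Pool.Agent.Helper64_FR

variable {n : ℕ}

/-- conjugation -/
def cj (g : UU n) (M : Matrix (Fin n) (Fin n) ℂ) : Matrix (Fin n) (Fin n) ℂ :=
  ((g⁻¹ : UU n) : Matrix (Fin n) (Fin n) ℂ) * M * (g : Matrix (Fin n) (Fin n) ℂ)

theorem cj_one (M : Matrix (Fin n) (Fin n) ℂ) : cj (1 : UU n) M = M := by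
  unfold cj
  rw [inv_one]
  show (1 : Matrix (Fin n) (Fin n) ℂ) * M * 1 = M
  rw [Matrix.one_mul, Matrix.mul_one]

theorem cj_mul (g h : UU n) (M : Matrix (Fin n) (Fin n) ℂ) : cj (g * h) M = cj h (cj g M) := by
  unfold cj
  rw [_root_.mul_inv_rev]
  show ((h⁻¹ : UU n) : Matrix (Fin n) (Fin n) ℂ) * ((g⁻¹ : UU n) : Matrix (Fin n) (Fin n) ℂ) * M *
    ((g : Matrix (Fin n) (Fin n) ℂ) * (h : Matrix (Fin n) (Fin n) ℂ)) = _
  simp only [Matrix.mul_assoc]

/-- the span of the orbit -/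
noncomputable def VV (k : ℕ) (p q : Fin n) : Submodule ℂ (Matrix (Fin n) (Fin n) ℂ → ℂ) :=
  Submodule.span ℂ (Set.range (orb k p q))

/-- monomials -/
def mon (k : ℕ) (P : Fin k → Fin n × Fin n) : Matrix (Fin n) (Fin n) ℂ → ℂ :=
  fun M => ∏ s, M (P s).1 (P s).2

theorem orb_mem (k : ℕ) (p q : Fin n) (g : UU n) :
    orb k p q g ∈ Submodule.span ℂ (Set.range (mon (n := n) k)) := by
  have h1 : orb k p q g = ∑ P : Fin k → Fin n × Fin n,
      (∏ s, (((g⁻¹ : UU n) : Matrix (Fin n) (Fin n) ℂ) p (P s).1 *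
        (g : Matrix (Fin n) (Fin n) ℂ) (P s).2 q)) • mon k P := by
    funext M
    rw [Finset.sum_apply]
    have h2 : (((g⁻¹ : UU n) : Matrix (Fin n) (Fin n) ℂ) * M *
        (g : Matrix (Fin n) (Fin n) ℂ)) p q = ∑ a : Fin n × Fin n,
        (((g⁻¹ : UU n) : Matrix (Fin n) (Fin n) ℂ) p a.1 *
          (g : Matrix (Fin n) (Fin n) ℂ) a.2 q) * M a.1 a.2 := by
      rw [Fintype.sum_prod_type, Matrix.mul_apply, Finset.sum_comm]
      refine Finset.sum_congr rfl fun j _ => ?_
      rw [Matrix.mul_apply, Finset.sum_mul]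
      exact Finset.sum_congr rfl fun i _ => by ring
    show (((g⁻¹ : UU n) : Matrix (Fin n) (Fin n) ℂ) * M *
        (g : Matrix (Fin n) (Fin n) ℂ)) p q ^ k = _
    rw [h2, Fintype.sum_pow]
    refine Finset.sum_congr rfl fun P _ => ?_
    rw [Finset.prod_mul_distrib]
    rfl
  rw [h1]
  exact Submodule.sum_mem _ fun P _ => Submodule.smul_mem _ _ (Submodule.subset_span ⟨P, rfl⟩)

instance instFinVV (k : ℕ) (p q : Fin n) : FiniteDimensional ℂ (VV k p q) := by
  have h1 : VV k p q ≤ Submodule.span ℂ (Set.range (mon (n := n) k)) := by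
    unfold VV
    rw [Submodule.span_le]
    rintro _ ⟨g, rfl⟩
    exact orb_mem k p q g
  have : FiniteDimensional ℂ (Submodule.span ℂ (Set.range (mon (n := n) k))) :=
    FiniteDimensional.span_of_finite ℂ (Set.finite_range _)
  exact Submodule.finiteDimensional_of_le h1

/-- the action on functions -/
noncomputable def act (g : UU n) :
    (Matrix (Fin n) (Fin n) ℂ → ℂ) →ₗ[ℂ] (Matrix (Fin n) (Fin n) ℂ → ℂ) :=
  LinearMap.funLeft ℂ ℂ (cj g)

theorem act_apply (g : UU n) (Φ : Matrix (Fin n) (Fin n) ℂ → ℂ) (M : Matrix (Fin n) (Fin n) ℂ) :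
    act g Φ M = Φ (cj g M) := rfl

theorem act_orb (k : ℕ) (p q : Fin n) (g h : UU n) :
    act g (orb k p q h) = orb k p q (g * h) := by
  funext M
  rw [act_apply]
  show (cj h (cj g M)) p q ^ k = (cj (g * h) M) p q ^ k
  rw [cj_mul]

theorem act_mem (k : ℕ) (p q : Fin n) (g : UU n) : ∀ Φ ∈ VV k p q, act g Φ ∈ VV k p q := by
  intro Φ hΦ
  unfold VV at hΦ ⊢
  induction hΦ using Submodule.span_induction with
  | mem x hx =>
    obtain ⟨h, rfl⟩ := hx
    rw [act_orb]
    exact Submodule.subset_span ⟨_, rfl⟩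
  | zero => rw [map_zero]; exact Submodule.zero_mem _
  | add x y _ _ hx hy => rw [map_add]; exact Submodule.add_mem _ hx hy
  | smul a x _ hx => rw [map_smul]; exact Submodule.smul_mem _ _ hx

/-- the action on the span -/
noncomputable def rs (k : ℕ) (p q : Fin n) (g : UU n) : VV k p q →ₗ[ℂ] VV k p q :=
  (act g).restrict (act_mem k p q g)

theorem rs_apply (k : ℕ) (p q : Fin n) (g : UU n) (Φ : VV k p q)
    (M : Matrix (Fin n) (Fin n) ℂ) :
    (rs k p q g Φ : Matrix (Fin n) (Fin n) ℂ → ℂ) M =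
      (Φ : Matrix (Fin n) (Fin n) ℂ → ℂ) (cj g M) := rfl

theorem cont_of_mem (k : ℕ) (p q : Fin n) : ∀ Φ ∈ VV k p q, Continuous Φ := by
  intro Φ hΦ
  unfold VV at hΦ
  induction hΦ using Submodule.span_induction with
  | mem x hx =>
    obtain ⟨h, rfl⟩ := hx
    have h1 : Continuous fun M : Matrix (Fin n) (Fin n) ℂ =>
        ((h⁻¹ : UU n) : Matrix (Fin n) (Fin n) ℂ) * M * (h : Matrix (Fin n) (Fin n) ℂ) :=
      (continuous_const.matrix_mul continuous_id).matrix_mul continuous_const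
    exact (h1.matrix_elem p q).pow k
  | zero => exact continuous_const
  | add x y _ _ hx hy => exact hx.add hy
  | smul a x _ hx => exact continuous_const.mul hx

theorem cont_cj (M : Matrix (Fin n) (Fin n) ℂ) : Continuous fun g : UU n => cj g M := by
  have h1 : Continuous fun g : UU n => (g : Matrix (Fin n) (Fin n) ℂ) := continuous_subtype_val
  have h2 : Continuous fun g : UU n => star (g : Matrix (Fin n) (Fin n) ℂ) := h1.star
  exact (h2.matrix_mul continuous_const).matrix_mul h1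

/-- the matrix representation -/
noncomputable def RR (k : ℕ) (p q : Fin n) :
    UU n →* Matrix (Fin (Module.finrank ℂ (VV k p q))) (Fin (Module.finrank ℂ (VV k p q))) ℂ where
  toFun g := LinearMap.toMatrix (Module.finBasis ℂ (VV k p q)) (Module.finBasis ℂ (VV k p q))
    (rs k p q g)
  map_one' := by
    have h1 : rs k p q (1 : UU n) = LinearMap.id := by
      ext Φ M
      rw [rs_apply, cj_one]
      rfl
    rw [h1, LinearMap.toMatrix_id]
  map_mul' g h := by
    have h1 : rs k p q (g * h) = (rs k p q g).comp (rs k p q h) := by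
      ext Φ M
      rw [rs_apply, cj_mul]
      rfl
    rw [h1, LinearMap.toMatrix_comp _ (Module.finBasis ℂ (VV k p q))]

theorem RR_cont (k : ℕ) (p q : Fin n) : Continuous fun g : UU n => RR k p q g := by
  refine continuous_matrix fun i j => ?_
  have h1 : ∀ g : UU n, RR k p q g i j = (Module.finBasis ℂ (VV k p q)).coord i
      (rs k p q g (Module.finBasis ℂ (VV k p q) j)) := by
    intro g
    show LinearMap.toMatrix _ _ (rs k p q g) i j = _
    rw [LinearMap.toMatrix_apply]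
    rfl
  simp only [h1]
  refine (LinearMap.continuous_of_finiteDimensional _).comp ?_
  refine continuous_induced_rng.2 (continuous_pi fun M => ?_)
  have h2 : Continuous ((Module.finBasis ℂ (VV k p q) j : VV k p q) :
      Matrix (Fin n) (Fin n) ℂ → ℂ) := cont_of_mem k p q _ (Submodule.coe_mem _)
  exact h2.comp (cont_cj M)

/-- EXI -/
theorem exi : EXIStmt := by
  intro n k p q _
  obtain ⟨ρ, e, S, S', h1, h2, h3⟩ := Pool.Agent.BSE.H90.uni n _ (RR k p q) (RR_cont k p q)
  obtain ⟨dim, hom, cont⟩ := ρ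
  dsimp only at e
  subst e
  have h3' : ∀ g : UU n, (URep.mk (Module.finrank ℂ (VV k p q)) hom cont).mat g =
      S * RR k p q g * S' := fun g => h3 g
  refine ⟨URep.mk (Module.finrank ℂ (VV k p q)) hom cont,
    (VV k p q).subtype ∘ₗ (Module.finBasis ℂ (VV k p q)).equivFun.symm.toLinearMap ∘ₗ
      (Matrix.mulVecLin S'), ?_, ?_, ?_⟩
  · intro v w hvw
    have h4 := Subtype.val_injective hvw
    have h5 : S' *ᵥ v = S' *ᵥ w := (Module.finBasis ℂ (VV k p q)).equivFun.symm.injective h4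
    have h6 : S *ᵥ (S' *ᵥ v) = S *ᵥ (S' *ᵥ w) := by rw [h5]
    rwa [Matrix.mulVec_mulVec, Matrix.mulVec_mulVec, h1, Matrix.one_mulVec,
      Matrix.one_mulVec] at h6
  · apply le_antisymm
    · rintro _ ⟨v, rfl⟩
      exact Submodule.coe_mem _
    · intro Φ hΦ
      refine ⟨S *ᵥ (Module.finBasis ℂ (VV k p q)).equivFun ⟨Φ, hΦ⟩, ?_⟩
      show ((Module.finBasis ℂ (VV k p q)).equivFun.symm (S' *ᵥ (S *ᵥ
        (Module.finBasis ℂ (VV k p q)).equivFun ⟨Φ, hΦ⟩)) : Matrix (Fin n) (Fin n) ℂ → ℂ) = Φ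
      rw [Matrix.mulVec_mulVec, h2, Matrix.one_mulVec, LinearEquiv.symm_apply_apply]
  · intro g v M
    have h4 : ∀ x : Fin (Module.finrank ℂ (VV k p q)) → ℂ,
        (Module.finBasis ℂ (VV k p q)).equivFun.symm (RR k p q g *ᵥ x) =
        rs k p q g ((Module.finBasis ℂ (VV k p q)).equivFun.symm x) := by
      intro x
      rw [LinearEquiv.symm_apply_eq]
      have h5 := LinearMap.toMatrix_mulVec_repr (Module.finBasis ℂ (VV k p q))
        (Module.finBasis ℂ (VV k p q)) (rs k p q g)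
        ((Module.finBasis ℂ (VV k p q)).equivFun.symm x)
      have h6 : ⇑((Module.finBasis ℂ (VV k p q)).repr
          ((Module.finBasis ℂ (VV k p q)).equivFun.symm x)) = x :=
        (Module.finBasis ℂ (VV k p q)).equivFun.apply_symm_apply x
      rw [h6] at h5
      exact h5
    show ((Module.finBasis ℂ (VV k p q)).equivFun.symm (S' *ᵥ
      ((URep.mk (Module.finrank ℂ (VV k p q)) hom cont).mat g *ᵥ v)) :
        Matrix (Fin n) (Fin n) ℂ → ℂ) M =
      ((Module.finBasis ℂ (VV k p q)).equivFun.symm (S' *ᵥ v) :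
        Matrix (Fin n) (Fin n) ℂ → ℂ) (cj g M)
    have h7 : S' *ᵥ ((URep.mk (Module.finrank ℂ (VV k p q)) hom cont).mat g *ᵥ v) =
        RR k p q g *ᵥ (S' *ᵥ v) := by
      rw [h3' g, Matrix.mulVec_mulVec, Matrix.mulVec_mulVec]
      congr 1
      rw [← Matrix.mul_assoc, ← Matrix.mul_assoc, h2, Matrix.one_mul]
    rw [h7, h4]
    rfl

end Pool.Agent.BSE.H6
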